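import Pool.Agent.Helper18_X2.Defs

/-!
# AWC, part X2: the statements of the modules

Text: `AWC_X2.md`.
-/

open scoped BigOperators

noncomputable section

namespace Pool.Agent.PP.X2

open Pool.Agent.Helper51_AWC Pool.Agent.Helper79_WRA Pool.Agent.PP

/-! ## 1. Quasisimple groups -/

/-- QUA: normal subgroups, quotients, central extensions and automorphisms of perfect central
extensions of nonabelian simple groups. -/
def QuaStmt : Prop := ∀ (K S : Type) [Group K] [Group S], NonabSimple S → CovS K S →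
  (∀ M : Subgroup K, M.Normal → M ≤ Subgroup.center K ∨ M = ⊤) ∧
  (¬ ∀ x y : K, x * y = y * x) ∧
  (∀ f : K →* S, Function.Surjective f → f.ker = Subgroup.center K) ∧
  (∀ (S' : Type) [Group S'], NonabSimple S' → ∀ f : K →* S', Function.Surjective f →
    Nonempty (S ≃* S')) ∧
  (∀ (L : Type) [Group L] (g : K →* L), Function.Surjective g → (∀ x, g x = 1) ∨ CovS L S) ∧
  (∀ (A : Type) [Group A] (g : A →* K), Function.Surjective g → g.ker ≤ Subgroup.center A →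
    CovS (commutator A) S ∧ (commutator A).map g = ⊤) ∧
  ∀ α : MulAut K, (∀ x, x⁻¹ * α x ∈ Subgroup.center K) → α = 1

/-- QMC: central extensions of `S` (not necessarily perfect). -/
def QmcStmt : Prop := ∀ (A S : Type) [Group A] [Group S], NonabSimple S →
  ∀ f : A →* S, Function.Surjective f → f.ker ≤ Subgroup.center A →
  CovS (commutator A) S ∧ (commutator A).map f = ⊤ ∧ f.ker = Subgroup.center A ∧
  ∀ x : A, ∃ y ∈ commutator A, ∃ z ∈ Subgroup.center A, x = y * z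

/-! ## 2. Products of commuting quasisimple groups -/

/-- LYB: first properties of `Lay`. -/
def LybStmt : Prop := ∀ (ℓ : ℕ) [Fact ℓ.Prime] (𝒜 : Fam) (H : Type) [Group H] [Finite H]
  (E : Subgroup H), Lay ℓ 𝒜 E →
  ⁅E, E⁆ = E ∧ ((∀ x ∈ E, ∀ y ∈ E, x * y = y * x) → E = ⊥) ∧
  E ≤ Subgroup.closure {x | x ∈ E ∧ ∃ n : ℕ, x ^ ℓ ^ n = 1}

/-- LYM: `Lay` under homomorphisms, subgroups. -/
def LymStmt : Prop := ∀ (ℓ : ℕ) (𝒜 : Fam) (H : Type) [Group H] (E : Subgroup H), Lay ℓ 𝒜 E →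
  (∀ (H' : Type) [Group H'] (φ : H →* H'), Lay ℓ 𝒜 (E.map φ)) ∧
  (∀ T : Subgroup H, E ≤ T → Lay ℓ 𝒜 (E.subgroupOf T)) ∧
  ∀ (D : Type) [Group D] (ψ : D →* H), E ≤ ψ.range → ψ.ker ≤ Subgroup.center D →
    Lay ℓ 𝒜 ⁅E.comap ψ, E.comap ψ⁆ ∧ (⁅E.comap ψ, E.comap ψ⁆).map ψ = E ∧
    ∀ x, ψ x ∈ E → ∃ y ∈ ⁅E.comap ψ, E.comap ψ⁆, ∃ z ∈ ψ.ker, x = y * z

/-- LYU: unions. -/
def LyuStmt : Prop := ∀ (ℓ : ℕ) (𝒜 : Fam) (H : Type) [Group H] (J : Type) [Finite J]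
  (E : J → Subgroup H), (∀ j, Lay ℓ 𝒜 (E j)) →
  (∀ i j, i ≠ j → ∀ x ∈ E i, ∀ y ∈ E j, x * y = y * x) → Lay ℓ 𝒜 (⨆ j, E j)

/-- PRM: automorphisms permute the factors; `E` acts on every factor by inner automorphisms. -/
def PrmStmt : Prop := ∀ (ℓ : ℕ) (𝒜 : Fam) (H : Type) [Group H] (E : Subgroup H) (I : Type)
  [Finite I] (K : I → Subgroup H), LayD ℓ 𝒜 E I K →
  (∀ i j, K i = K j → i = j) ∧
  (∀ g ∈ Subgroup.normalizer (E : Set H), ∀ i, ∃ j,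
    (K i).map (MulAut.conj g).toMonoidHom = K j) ∧
  (∀ x ∈ E, ∀ i, ∃ k ∈ K i, ∃ c ∈ E, x = k * c ∧ ∀ y ∈ K i, c * y = y * c) ∧
  ∀ x ∈ E, (∀ i, ∀ y ∈ K i, x * y = y * x) → ∀ y ∈ E, x * y = y * x

/-- NRM: `M` and `E` normalise each other: every factor of `E` is contained in `M` or
centralises `M`. -/
def NrmStmt : Prop := ∀ (ℓ : ℕ) (𝒜 : Fam) (H : Type) [Group H] [Finite H] (E M : Subgroup H)
  (I : Type) [Finite I] (K : I → Subgroup H), LayD ℓ 𝒜 E I K →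
  E ≤ Subgroup.normalizer (M : Set H) → M ≤ Subgroup.normalizer (E : Set H) →
  ∀ i, K i ≤ M ∨ ∀ x ∈ K i, ∀ m ∈ M, x * m = m * x

/-- NRE: the part of `E` in a normal subgroup `M`. -/
def NreStmt : Prop := ∀ (ℓ : ℕ) (𝒜 : Fam) (H : Type) [Group H] [Finite H] (E M : Subgroup H),
  E.Normal → M.Normal → Lay ℓ 𝒜 E → ∃ E₂ : Subgroup H, E₂.Normal ∧ E₂ ≤ E ∧ E₂ ≤ M ∧ Lay ℓ 𝒜 E₂ ∧
    ∀ x ∈ E, x ∈ M → ∀ y ∈ E, y ∈ M → x * y * x⁻¹ * y⁻¹ ∈ E₂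

/-- NRB: `E` stabilises the functions on normal subgroups `M` which are invariant under `M`. -/
def NrbStmt : Prop := ∀ (ℓ : ℕ) (𝒜 : Fam) (F H : Type) [Field F] [Group H] [Finite H]
  (E M : Subgroup H), E.Normal → M.Normal → Lay ℓ 𝒜 E → ∀ b : H → F, (∀ x, x ∉ M → b x = 0) →
  (∀ x ∈ M, ∀ y ∈ M, b (y * x * y⁻¹) = b x) → E ≤ stabF b

/-- MDA: simple quotients: abelian normal parts do not matter. -/
def MdaStmt : Prop := ∀ (H S : Type) [Group H] [Group S], NonabSimple S → ∀ (K B : Subgroup H)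
  (f : K →* S), Function.Surjective f → K ≤ Subgroup.normalizer (B : Set H) →
  (∀ x y : K, (x : H) ∈ B → (y : H) ∈ B → f x * f y = f y * f x) → ∀ x : K, (x : H) ∈ B → f x = 1

/-! ## 3. The class -/

/-- CLR: passage to a subgroup `T`. -/
def ClrStmt : Prop := ∀ (ℓ : ℕ) (𝒜 : Fam) (H : Type) [Group H] [Finite H] (N E T : Subgroup H),
  E.Normal → E ≤ N → Lay ℓ 𝒜 E → ModA ℓ 𝒜 N E → E ≤ T → Cls ℓ 𝒜 (N.subgroupOf T)

/-- CLS: passage to a normal subgroup. -/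
def ClsStmt : Prop := ∀ (ℓ : ℕ) (𝒜 : Fam) (H : Type) [Group H] [Finite H] (N N₂ : Subgroup H),
  N₂.Normal → N₂ ≤ N → Cls ℓ 𝒜 N → Cls ℓ 𝒜 N₂

/-- CLB: passage to the stabiliser of a function on a normal subgroup `M`. -/
def ClbStmt : Prop := ∀ (ℓ : ℕ) (𝒜 : Fam) (F H : Type) [Field F] [Group H] [Finite H]
  (N M : Subgroup H), M.Normal → Cls ℓ 𝒜 N → ∀ b : H → F, (∀ x, x ∉ M → b x = 0) →
  (∀ x ∈ M, ∀ y ∈ M, b (y * x * y⁻¹) = b x) → Cls ℓ 𝒜 (N.subgroupOf (stabF b))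

/-- CLQ: quotients. -/
def ClqStmt : Prop := ∀ (ℓ : ℕ) (𝒜 : Fam) (H H' : Type) [Group H] [Finite H] [Group H']
  [Finite H'] (p : H →* H') (N : Subgroup H), Function.Surjective p → Cls ℓ 𝒜 N →
  Cls ℓ 𝒜 (N.map p)

/-- CLP: central extensions. -/
def ClpStmt : Prop := ∀ (ℓ : ℕ) (𝒜 : Fam) (H D : Type) [Group H] [Finite H] [Group D] [Finite D]
  (ψ : D →* H) (N : Subgroup H), Function.Surjective ψ → ψ.ker ≤ Subgroup.center D →
  Cls ℓ 𝒜 N → Cls ℓ 𝒜 (N.comap ψ)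

/-- CLM: groups which are central extensions of a member of the family. -/
def ClmStmt : Prop := ∀ (ℓ : ℕ) [Fact ℓ.Prime] (𝒜 : Fam) (S : Type) [Group S] [Finite S],
  NonabSimple S → ℓ ∣ Nat.card S → 𝒜 S → ∀ (H : Type) [Group H] [Finite H] (N : Subgroup H),
  N.Normal → (∃ f : N →* S, Function.Surjective f ∧ f.ker ≤ Subgroup.center N) → Cls ℓ 𝒜 N

/-- CLE: normal subgroups `K` of `N = E (N ∩ Z(G))`, and groups isomorphic to them. -/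
def CleStmt : Prop := ∀ (ℓ : ℕ) [Fact ℓ.Prime] (𝒜 : Fam) (G : Type) [Group G] [Finite G]
  (N E K : Subgroup G), E.Normal → E ≤ N → Lay ℓ 𝒜 E → N ≤ E ⊔ Subgroup.center G → K ≤ N →
  N ≤ Subgroup.normalizer (K : Set G) → ∀ (H₁ : Type) [Group H₁] [Finite H₁] (Q₁ : Subgroup H₁),
  Q₁.Normal → Nonempty (Q₁ ≃* K) → Cls ℓ 𝒜 Q₁

/-- CLN: chief factors in the class. -/
def ClnStmt : Prop := ∀ (ℓ : ℕ) [Fact ℓ.Prime] (𝒜 : Fam) (G : Type) [Group G] [Finite G]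
  (N : Subgroup G), Chief N → Cls ℓ 𝒜 N →
  InvA ℓ 𝒜 N ∨ ∃ E : Subgroup G, E.Normal ∧ E ≤ N ∧ Lay ℓ 𝒜 E ∧ N ≤ E ⊔ Subgroup.center G ∧
    (IsSimpleGroup (N ⧸ (Subgroup.center G).subgroupOf N) →
      ∃ (S : Type) (_ : Group S) (_ : Finite S), NonabSimple S ∧ ℓ ∣ Nat.card S ∧ 𝒜 S ∧
        Nonempty ((N ⧸ (Subgroup.center G).subgroupOf N) ≃* S))

/-! ## 4. Fixed points of `ℓ`-groups -/

/-- FIX: `ℓ`-groups have fixed points on the cosets of normalised `ℓ'`-groups. -/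
def FixStmt : Prop := ∀ (ℓ : ℕ) [Fact ℓ.Prime] (G : Type) [Group G] [Finite G] (P Z : Subgroup G),
  IsPGroup ℓ P → ¬ ℓ ∣ Nat.card Z → P ≤ Subgroup.normalizer (Z : Set G) → ∀ x : G,
  (∀ p ∈ P, x⁻¹ * (p * x * p⁻¹) ∈ Z) → ∃ z ∈ Z, x * z ∈ Subgroup.centralizer (P : Set G)

/-- FXP: fixed points in a product of commuting groups. -/
def FxpStmt : Prop := ∀ (ℓ : ℕ) [Fact ℓ.Prime] (G : Type) [Group G] [Finite G] (P : Subgroup G),
  IsPGroup ℓ P → ∀ (J : Type) [Finite J] (E : J → Subgroup G),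
  (∀ i j, i ≠ j → ∀ x ∈ E i, ∀ y ∈ E j, x * y = y * x) →
  (∀ j, P ≤ Subgroup.normalizer (E j : Set G)) →
  ¬ ℓ ∣ Nat.card (Subgroup.centralizer ((⨆ j, E j : Subgroup G) : Set G) ⊓ (⨆ j, E j) :
    Subgroup G) →
  Subgroup.centralizer (P : Set G) ⊓ (⨆ j, E j) =
    ⨆ j, (Subgroup.centralizer (P : Set G) ⊓ E j)

/-- ORB: fixed points in the product of the factors of one orbit: a central extension of the fixed
points of an `ℓ`-group of automorphisms of `S`. -/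
def OrbfStmt : Prop := ∀ (ℓ : ℕ) [Fact ℓ.Prime] (G : Type) [Group G] [Finite G] (P : Subgroup G),
  IsPGroup ℓ P → ∀ (I : Type) [Finite I] (K : I → Subgroup G),
  (∀ i j, i ≠ j → ∀ x ∈ K i, ∀ y ∈ K j, x * y = y * x) → (∀ i j, K i = K j → i = j) →
  (∀ p ∈ P, ∀ i, ∃ j, (K i).map (MulAut.conj p).toMonoidHom = K j) →
  (∀ i j, ∃ p ∈ P, (K i).map (MulAut.conj p).toMonoidHom = K j) →
  ¬ ℓ ∣ Nat.card (Subgroup.centralizer ((⨆ i, K i : Subgroup G) : Set G) ⊓ (⨆ i, K i) :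
    Subgroup G) →
  ∀ (i : I) (S : Type) [Group S] [Finite S], NonabSimple S → CovS (K i) S →
  ∃ Q : Subgroup (MulAut S), IsPGroup ℓ Q ∧
    ∃ π : (Subgroup.centralizer (P : Set G) ⊓ (⨆ i, K i) : Subgroup G) →* fixN Q,
      Function.Surjective π ∧ π.ker ≤ Subgroup.center _ ∧ ¬ ℓ ∣ Nat.card π.ker

/-- FXI: inner automorphisms in an `ℓ`-group of automorphisms. -/
def FxiStmt : Prop := ∀ (ℓ : ℕ) [Fact ℓ.Prime] (S : Type) [Group S] [Finite S], NonabSimple S →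
  ∀ Q : Subgroup (MulAut S), IsPGroup ℓ Q → Q ⊓ (MulAut.conj (G := S)).range ≠ ⊥ →
  opCore ℓ (fixN Q) ≠ ⊥

/-- LFC: lifting the three alternatives through a central `ℓ'`-extension. -/
def LfcStmt : Prop := ∀ (ℓ : ℕ) [Fact ℓ.Prime] (𝒜 : Fam) (A B : Type) [Group A] [Finite A]
  [Group B] [Finite B] (f : A →* B), Function.Surjective f → f.ker ≤ Subgroup.center A →
  ¬ ℓ ∣ Nat.card f.ker →
  (opCore ℓ B ≠ ⊥ → opCore ℓ A ≠ ⊥) ∧ (Lay ℓ 𝒜 (Oup ℓ B) → Lay ℓ 𝒜 (Oup ℓ A)) ∧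
    (InvA ℓ 𝒜 B → InvA ℓ 𝒜 A)

/-- ALT: the three alternatives for the fixed points in the factors of one orbit. -/
def AltStmt : Prop := ∀ (ℓ : ℕ) [Fact ℓ.Prime] (𝒜 : Fam), ClosedF ℓ 𝒜 →
  ∀ (S : Type) [Group S] [Finite S], NonabSimple S → ℓ ∣ Nat.card S → 𝒜 S →
  ∀ Q : Subgroup (MulAut S), IsPGroup ℓ Q → ∀ (C : Type) [Group C] [Finite C] (π : C →* fixN Q),
  Function.Surjective π → π.ker ≤ Subgroup.center C → ¬ ℓ ∣ Nat.card π.ker →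
  opCore ℓ C ≠ ⊥ ∨ Lay ℓ 𝒜 (Oup ℓ C) ∨ InvA ℓ 𝒜 C

/-- SQF: simple quotients of subgroups of a product of commuting subgroups. -/
def SqfStmt : Prop := ∀ (G : Type) [Group G] [Finite G] (J : Type) [Finite J]
  (C : J → Subgroup G) (E' : Subgroup G),
  (∀ i j, i ≠ j → ∀ x ∈ C i, ∀ y ∈ C j, x * y = y * x) →
  (⨆ j, C j) ≤ Subgroup.normalizer (E' : Set G) → E' ≤ (⨆ j, C j) →
  ∀ (S : Type) [Group S] [Finite S], NonabSimple S → ∀ (L : Subgroup G) (f : L →* S),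
  L ≤ (⨆ j, C j) → Function.Surjective f → (∀ x : L, (x : G) ∈ E' → f x = 1) →
  ∃ (j : J) (L₂ : Subgroup G) (f₂ : L₂ →* S), L₂ ≤ C j ∧ Function.Surjective f₂ ∧
    ∀ x : L₂, (x : G) ∈ E' → f₂ x = 1

/-- FXC: centralisers of `ℓ`-groups. -/
def FxcStmt : Prop := ∀ (ℓ : ℕ) [Fact ℓ.Prime] (𝒜 : Fam), ClosedF ℓ 𝒜 →
  ∀ (G : Type) [Group G] [Finite G] (N : Subgroup G), N.Normal → opCore ℓ N = ⊥ → Cls ℓ 𝒜 N →
  ∀ P : Subgroup G, IsPGroup ℓ P → ∀ X : Subgroup G, Subgroup.centralizer (P : Set G) ≤ X →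
  X ≤ Subgroup.normalizer (P : Set G) →
  opCore ℓ ((Subgroup.centralizer (P : Set G) ⊓ N).subgroupOf X) ≠ ⊥ ∨
    Cls ℓ 𝒜 ((Subgroup.centralizer (P : Set G) ⊓ N).subgroupOf X)

/-! ## 5. The hypothesis -/

/-- HYT: the hypothesis passes to subgroups, quotients, central extensions and subgroups of
`H × H`. -/
def HytStmt : Prop := ∀ (ℓ : ℕ) (F : Type) [Field F] (𝒜 : Fam) (H : Type) [Group H],
  Hyp ℓ F 𝒜 H →
  (∀ (H' : Type) [Group H'] (p : H' →* H), p.ker ≤ Subgroup.center H' → Hyp ℓ F 𝒜 H') ∧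
  (∀ (H' : Type) [Group H'] (p : H →* H'), Function.Surjective p → Hyp ℓ F 𝒜 H') ∧
  ∀ (H' : Type) [Group H'] (i : H' →* H × H), Function.Injective i → Hyp ℓ F 𝒜 H'

/-! ## 6. The character theoretic part (variants of the modules of PP) -/

/-- DZ2: DZ with the additional information `M' = ψ⁻¹(M / N)`. -/
def Dz2Stmt : Prop := ∀ (ℓ : ℕ) (F : Type) [Field F], GoodF ℓ F → ∀ (G : Type) [Group G] [Finite G]
  (N M : Subgroup G) [N.Normal] (b e : G → F), NB ℓ N b → M.Normal → N ≤ M → IsIdem e →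
  mulF e b = e → Pos ℓ e M → ∃ (D : Type) (_ : Group D) (_ : Finite D) (W M' : Subgroup D)
    (ψ : D →* G ⧸ N) (f : D → F),
    Function.Surjective ψ ∧ ψ.ker = W ∧ M' = (M.map (QuotientGroup.mk' N)).comap ψ ∧
    W ≤ Subgroup.center D ∧ ¬ ℓ ∣ Nat.card W ∧ M'.Normal ∧ W ≤ M' ∧
    W.relIndex M' = N.relIndex M ∧ IsIdem f ∧ Pos ℓ f M' ∧
    (Nat.card W : ℤ) * YY ℓ M e = (Nat.card N : ℤ) * YY ℓ M' f

/-- LQC: LQN with the induction hypothesis only for the centralisers of `ℓ`-elements. -/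
def LqcStmt : Prop := ∀ (ℓ : ℕ) [Fact ℓ.Prime] (F : Type) [Field F], GoodF ℓ F →
  ∀ (X : Type) [Group X] [Finite X] (Y X₀ : Subgroup X), Y.Normal → X₀.Normal → Y ≤ X₀ →
  (∃ n : ℕ, X₀.index = ℓ ^ n) → ¬ ℓ ∣ Nat.card (Subgroup.centralizer (Y : Set X)) →
  (∀ (G : Type) [Group G] [Finite G] (j : G →* X) (Z : Subgroup G) (u : G),
    Function.Injective j → Z.Normal → Z.map j = Y → u ≠ 1 → (∃ n : ℕ, u ^ ℓ ^ n = 1) →
    Subgroup.zpowers u ⊓ Z = ⊥ →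
    mu ((Subgroup.centralizer ({u} : Set G) ⊓ Z).subgroupOf
      (Subgroup.centralizer ({u} : Set G))) < mu Y →
    YH ℓ F ((Subgroup.centralizer ({u} : Set G) ⊓ Z).subgroupOf
      (Subgroup.centralizer ({u} : Set G)))) →
  ∀ e : X → F, IsIdem e → Pos ℓ e Y →
    YY ℓ (Y.subgroupOf X₀) (fun t : X₀ => e t) = 0 → YY ℓ Y e = 0

/-- FNC: FNL with the induction hypothesis only for the groups `C_M(P)`. -/
def FncStmt : Prop := ∀ (ℓ : ℕ) [Fact ℓ.Prime] (F : Type) [Field F], GoodF ℓ F →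
  ∀ (D : Type) [Group D] [Finite D] (M : Subgroup D), M.Normal →
  Subgroup.centralizer (M : Set D) = Subgroup.center D → ¬ ℓ ∣ Nat.card (Subgroup.center D) →
  Subgroup.center D ≤ M →
  (∀ P : Subgroup D, IsPGroup ℓ P → P ≠ ⊥ → ∀ X : Subgroup D,
    Subgroup.centralizer (P : Set D) ≤ X → X ≤ Subgroup.normalizer (P : Set D) →
    ((Subgroup.centralizer (P : Set D) ⊓ M).subgroupOf X).Normal →
    mu ((Subgroup.centralizer (P : Set D) ⊓ M).subgroupOf X) < mu M →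
    YH ℓ F ((Subgroup.centralizer (P : Set D) ⊓ M).subgroupOf X)) →
  ∀ f : D → F, IsIdem f → Pos ℓ f M → (Pos ℓ f ⊤ → YY ℓ ⊤ f = 0) → YY ℓ M f = 0

/-- ENC: the end of the proof of S1 in the group `D` (LQU for the class). -/
def EncStmt : Prop := ∀ (ℓ : ℕ) [Fact ℓ.Prime] (F : Type) [Field F], GoodF ℓ F →
  ∀ 𝒜 : Fam, ClosedF ℓ 𝒜 → ∀ (S : Type) [Group S] [Finite S], NonabSimple S → ℓ ∣ Nat.card S →
  𝒜 S → ∀ (D : Type) [Group D] [Finite D] (M : Subgroup D), M.Normal → opCore ℓ D = ⊥ →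
  NearlySimple D S → Subgroup.centralizer (M : Set D) = Subgroup.center D →
  ¬ ℓ ∣ Nat.card (Subgroup.center D) → Subgroup.center D ≤ M → mu M = Nat.card S →
  Hyp ℓ F 𝒜 D → YltC ℓ F 𝒜 (mu M) → ∀ f : D → F, IsIdem f →
  (∀ z ∈ Subgroup.center D, z ≠ 1 → ∃ c : F, c ≠ 1 ∧ ∀ x, f (z * x) = c * f x) →
  Pos ℓ f M → YY ℓ M f = 0

/-- S1N: the reduction to the nearly simple groups (the theorem `H67.s1_core` with a general last
step). -/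
def S1nxStmt : Prop := ∀ (ℓ : ℕ) [Fact ℓ.Prime] (F : Type) [Field F], GoodF ℓ F →
  ∀ (G : Type) [Group G] [Finite G] (N : Subgroup G), N.Normal → opCore ℓ N = ⊥ →
  NASimple (N ⧸ (Subgroup.center G).subgroupOf N) → NilOut N →
  (∀ (E : Type) [Group E] [Finite E] (p : E →* G) (K : Subgroup E) [K.Normal],
    (∀ x, p x = 1 → x ∈ Subgroup.center E) → ∀ M : Subgroup (E ⧸ K), M.Normal →
    opCore ℓ (E ⧸ K) = ⊥ → NearlySimple (E ⧸ K) (N ⧸ (Subgroup.center G).subgroupOf N) →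
    Subgroup.centralizer (M : Set (E ⧸ K)) = Subgroup.center (E ⧸ K) →
    ¬ ℓ ∣ Nat.card (Subgroup.center (E ⧸ K)) → Subgroup.center (E ⧸ K) ≤ M → mu M = mu N →
    ∀ f : E ⧸ K → F, IsIdem f →
    (∀ z ∈ Subgroup.center (E ⧸ K), z ≠ 1 → ∃ c : F, c ≠ 1 ∧ ∀ x, f (z * x) = c * f x) →
    Pos ℓ f M → YY ℓ M f = 0) →
  YH ℓ F N

/-- S1M: nilpotent outer part. -/
def S1mStmt : Prop := ∀ (ℓ : ℕ) [Fact ℓ.Prime] (F : Type) [Field F], GoodF ℓ F →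
  ∀ 𝒜 : Fam, ClosedF ℓ 𝒜 → ∀ (S : Type) [Group S] [Finite S], NonabSimple S → ℓ ∣ Nat.card S →
  𝒜 S → ∀ (G : Type) [Group G] [Finite G] (N : Subgroup G), N.Normal → opCore ℓ N = ⊥ →
  Nonempty ((N ⧸ (Subgroup.center G).subgroupOf N) ≃* S) → NilOut N → Hyp ℓ F 𝒜 G →
  YltC ℓ F 𝒜 (mu N) → YH ℓ F N

/-- S1C: the case of a simple chief factor. -/
def S1cStmt : Prop := ∀ (ℓ : ℕ) [Fact ℓ.Prime] (F : Type) [Field F], GoodF ℓ F →
  ∀ 𝒜 : Fam, ClosedF ℓ 𝒜 → ∀ (S : Type) [Group S] [Finite S], NonabSimple S → ℓ ∣ Nat.card S →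
  𝒜 S → ∀ (G : Type) [Group G] [Finite G] (N : Subgroup G), N.Normal → opCore ℓ N = ⊥ →
  Nonempty ((N ⧸ (Subgroup.center G).subgroupOf N) ≃* S) → Hyp ℓ F 𝒜 G →
  YltC ℓ F 𝒜 (mu N) → YH ℓ F N

/-- R2C: the case of a nonabelian chief factor that is not simple. -/
def R2cStmt : Prop := ∀ (ℓ : ℕ) [Fact ℓ.Prime] (F : Type) [Field F], GoodF ℓ F →
  ∀ 𝒜 : Fam, ∀ (G : Type) [Group G] [Finite G] (N : Subgroup G), Chief N → opCore ℓ N = ⊥ →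
  (∃ x ∈ N, ∃ y ∈ N, x * y * x⁻¹ * y⁻¹ ∉ Subgroup.center G) →
  ¬ IsSimpleGroup (N ⧸ (Subgroup.center G).subgroupOf N) →
  (∃ E : Subgroup G, E.Normal ∧ E ≤ N ∧ Lay ℓ 𝒜 E ∧ N ≤ E ⊔ Subgroup.center G) →
  Hyp ℓ F 𝒜 G → YltC ℓ F 𝒜 (mu N) →
  ∀ e : G → F, IsBlk e → Pos ℓ e N → ∀ b : N → F, IsBlk b → stabF (ext0 N b) = ⊤ →
    mulF e (ext0 N b) = e → YY ℓ N e = 0

/-- TOPC: the master theorem. -/
def MainCStmt : Prop := ∀ (ℓ : ℕ) [Fact ℓ.Prime] (F : Type) [Field F], GoodF ℓ F →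
  ∀ 𝒜 : Fam, ClosedF ℓ 𝒜 → ∀ (H : Type) [Group H] [Finite H] (N : Subgroup H), N.Normal →
  Cls ℓ 𝒜 N → Hyp ℓ F 𝒜 H → YH ℓ F N

/-- VC: two generators of the outer part suffice. -/
def VcStmt : Prop := ∀ (ℓ : ℕ) [Fact ℓ.Prime] (F : Type) [Field F], GoodF ℓ F →
  ∀ 𝒜 : Fam, ClosedF ℓ 𝒜 → ∀ (H : Type) [Group H] [Finite H], HypV ℓ F 𝒜 H → Hyp ℓ F 𝒜 H

/-- STC: the groups `D` with `Z(D) ≤ [D, D]` suffice. -/
def StcStmt : Prop := ∀ (ℓ : ℕ) [Fact ℓ.Prime] (F : Type) [Field F], GoodF ℓ F →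
  ∀ (𝒜 : Fam) (H : Type) [Group H] [Finite H], HypQ ℓ F 𝒜 H → HypV ℓ F 𝒜 H

/-- RELC: the relative form. -/
def RelCStmt : Prop := ∀ (ℓ : ℕ) [Fact ℓ.Prime] (F : Type) [Field F], GoodF ℓ F →
  ∀ 𝒜 : Fam, ClosedF ℓ 𝒜 → ∀ (G : Type) [Group G] [Finite G] (N : Subgroup G), N.Normal →
  opCore ℓ N = ⊥ → Cls ℓ 𝒜 N → Hyp ℓ F 𝒜 G → ∀ e : G → F, IsIdem e → Pos ℓ e N → YY ℓ ⊤ e = 0

/-! ## 7. The final theorem -/

/-- The hypothesis in terms of ordinary characters: the alternating sums vanish for the characters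
`χ` of large defect, faithful on the centre, of the groups `D` with `O_ℓ(D) = 1`,
`Z(D) ≤ [D, D]`, `D / Z(D)` almost simple with socle in `𝒜` of order divisible by `ℓ` and involved
in `G`, with outer part a nilpotent group of order prime to `ℓ` generated by two elements. -/
def HypC (ℓ : ℕ) (M : Ideal (integralClosure ℤ ℂ)) (𝒜 : Fam) (G : Type) [Group G] : Prop :=
  ∀ (S : Type) [Group S] [Finite S], NonabSimple S → ℓ ∣ Nat.card S → 𝒜 S →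
  ∀ (D : Type) [Group D] [Finite D], opCore ℓ D = ⊥ → Subgroup.center D ≤ commutator D →
  NearlySimpleF ℓ D S → Involves G (D ⧸ Subgroup.center D) →
  ∀ χ ∈ Irr D, (∀ z ∈ Subgroup.center D, χ z = χ 1 → z = 1) → LargeDefect ℓ M χ →
    altSum ℓ M χ = 0

/-- The subgroup `E` is generated by pairwise commuting quasisimple subgroups whose simple
quotients are in `𝒜` or have order prime to `ℓ`. -/
def LayG (ℓ : ℕ) (𝒜 : Fam) {H : Type} [Group H] (E : Subgroup H) : Prop :=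
  ∃ (I : Type) (_ : Finite I) (K : I → Subgroup H),
    (∀ i j, i ≠ j → ∀ x ∈ K i, ∀ y ∈ K j, x * y = y * x) ∧ (⨆ i, K i) = E ∧
    ∀ i, ∃ (S : Type) (_ : Group S) (_ : Finite S), NonabSimple S ∧ (ℓ ∣ Nat.card S → 𝒜 S) ∧
      CovS (K i) S

/-- CLG: `LayG` gives the class. -/
def ClgStmt : Prop := ∀ (ℓ : ℕ) [Fact ℓ.Prime] (𝒜 : Fam) (G : Type) [Group G] [Finite G]
  (N E : Subgroup G), E.Normal → E ≤ N → LayG ℓ 𝒜 E → ModA ℓ 𝒜 N E → Cls ℓ 𝒜 N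

/-- FINC: the final theorem. -/
def FinCStmt : Prop := ∀ (ℓ : ℕ), ℓ.Prime → ∀ (M : Ideal (integralClosure ℤ ℂ)) [M.IsMaximal],
  (ℓ : integralClosure ℤ ℂ) ∈ M → ∀ 𝒜 : Fam, ClosedF ℓ 𝒜 → ∀ (G : Type) [Group G] [Finite G],
  opCore ℓ G ≤ Subgroup.center G → ∀ N E : Subgroup G, N.Normal → E.Normal → E ≤ N →
  LayG ℓ 𝒜 E → ModA ℓ 𝒜 N E → HypC ℓ M 𝒜 G →
  ∀ χ ∈ Irr G, ∀ ψ ∈ Irr N, (∑ᶠ n : N, χ n * starRingEnd ℂ (ψ n)) ≠ 0 → LargeDefect ℓ M ψ →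
    altSum ℓ M χ = 0

/-- CLA: the simple groups involved in a fixed group are a closed family. -/
def ClaStmt : Prop := ∀ (ℓ : ℕ) [Fact ℓ.Prime] (G : Type) [Group G] [Finite G],
  ClosedF ℓ (fun S _ _ => Involves G S)

/-- CLO: families with the three alternatives for every member: members `S` without outer
automorphisms of order `ℓ`, or all simple groups of order divisible by `ℓ` involved in `S` are
members. -/
def CloStmt : Prop := ∀ (ℓ : ℕ) [Fact ℓ.Prime] (𝒜 : Fam),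
  (∀ (S : Type) [Group S] [Finite S], NonabSimple S → ℓ ∣ Nat.card S → 𝒜 S →
    (∀ α : MulAut S, (∃ n : ℕ, α ^ ℓ ^ n = 1) → ∃ s : S, α = MulAut.conj s) ∨ InvA ℓ 𝒜 S) →
  ClosedF ℓ 𝒜

end Pool.Agent.PP.X2
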