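import Pool.Agent.Helper18_X2.FinR

/-!
# AWC, part X2: the final theorem in terms of admissible simple groups, continued
-/

open scoped BigOperators

noncomputable section

namespace Pool.Agent.PP.X2.H18

open Pool.Agent.Helper51_AWC Pool.Agent.Helper79_WRA Pool.Agent.PP

theorem involves_quot {H : Type} [Group H] (N E : Subgroup H) [hE : E.Normal] (S : Type) [Group S]
    (K : Subgroup H) (hK : K ≤ N) (f : K →* S) (hf : Function.Surjective f)
    (h1 : ∀ x : K, (x : H) ∈ E → f x = 1) : Involves (N ⧸ E.subgroupOf N) S := by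
  let p : K →* (N ⧸ E.subgroupOf N) := (QuotientGroup.mk' (E.subgroupOf N)).comp
    (Subgroup.inclusion hK)
  have hker : p.ker ≤ f.ker := by
    intro x hx
    rw [MonoidHom.mem_ker] at hx ⊢
    have h2 : QuotientGroup.mk' (E.subgroupOf N) (Subgroup.inclusion hK x) = 1 := hx
    rw [QuotientGroup.mk'_apply, QuotientGroup.eq_one_iff] at h2
    exact h1 x h2
  let q : p.range →* S :=
    (QuotientGroup.lift p.ker f hker).comp (QuotientGroup.quotientKerEquivRange p).symm.toMonoidHom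
  refine ⟨p.range, q, ?_⟩
  intro s
  obtain ⟨x, rfl⟩ := hf s
  refine ⟨⟨p x, ⟨x, rfl⟩⟩, ?_⟩
  have h3 : (QuotientGroup.quotientKerEquivRange p).symm ⟨p x, ⟨x, rfl⟩⟩ =
      (QuotientGroup.mk x : K ⧸ p.ker) := by
    rw [MulEquiv.symm_apply_eq]
    rfl
  show QuotientGroup.lift p.ker f hker ((QuotientGroup.quotientKerEquivRange p).symm _) = _
  rw [h3]
  rfl

theorem covS_inv {H : Type} [Group H] {N K : Subgroup H} (hK : K ≤ N) {S : Type} [Group S]
    (h : CovS K S) : Involves N S := by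
  obtain ⟨-, f, hf, -⟩ := h
  refine ⟨K.subgroupOf N, f.comp (Subgroup.subgroupOfEquivOfLe hK).toMonoidHom, ?_⟩
  exact hf.comp (Subgroup.subgroupOfEquivOfLe hK).surjective

theorem lay_mono {ℓ : ℕ} {𝒜 ℬ : Fam} {H : Type} [Group H] {E : Subgroup H}
    (h : ∀ (S : Type) [Group S] [Finite S], NonabSimple S → ℓ ∣ Nat.card S → 𝒜 S →
      Involves H S → ℬ S) (hE : Lay ℓ 𝒜 E) : Lay ℓ ℬ E := by
  obtain ⟨I, hI, K, h1, h2, h3⟩ := hE
  refine ⟨I, hI, K, h1, h2, fun i => ?_⟩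
  obtain ⟨S, gS, fS, hS, hl, hAS, hK, f, hf, hker⟩ := h3 i
  exact ⟨S, gS, fS, hS, hl, h S hS hl hAS ⟨K i, f, hf⟩, hK, f, hf, hker⟩

/-- the final theorem of part X2 -/
theorem finR (finc : FinCStmt) (clf : ClfStmt) (ℓ : ℕ) [hℓ : Fact ℓ.Prime]
    (M : Ideal (integralClosure ℤ ℂ)) [M.IsMaximal] (hM : (ℓ : integralClosure ℤ ℂ) ∈ M)
    (𝒜 : Fam) (G : Type) [Group G] [Finite G] (hc : opCore ℓ G ≤ Subgroup.center G)
    (N E : Subgroup G) [hN : N.Normal] [hE : E.Normal] (hEN : E ≤ N) (hE1 : QProd (Adm ℓ 𝒜) E)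
    (hNE : AllIn (Adm ℓ 𝒜) (N ⧸ E.subgroupOf N))
    (hfix : ∀ (S : Type) [Group S] [Finite S], NonabSimple S → ℓ ∣ Nat.card S → Involves N S →
      𝒜 S → ¬ GoodS ℓ S → FixIn ℓ (Adm ℓ 𝒜) S)
    (χ : G → ℂ) (hχ : χ ∈ Irr G) (ψ : N → ℂ) (hψ : ψ ∈ Irr N)
    (hχψ : (∑ᶠ n : N, χ n * starRingEnd ℂ (ψ n)) ≠ 0) (hL : LargeDefect ℓ M ψ)
    (h0 : altSum ℓ M χ ≠ 0) :
    ∃ (S : Type) (_ : Group S) (_ : Finite S) (D : Type) (_ : Group D) (_ : Finite D),
      NonabSimple S ∧ 𝒜 S ∧ Involves N S ∧ ℓ ^ 2 ∣ Nat.card S ∧ ¬ CyTI ℓ S ∧ ¬ RankOne ℓ S ∧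
        (∀ (K : Type) [Field K] [Finite K], (ℓ = 2 → (2 : K) = 0) →
          IsEmpty (S ≃* Matrix.ProjectiveSpecialLinearGroup (Fin 2) K)) ∧
        opCore ℓ D = ⊥ ∧ Subgroup.center D ≤ commutator D ∧ NearlySimpleF ℓ D S ∧
        Involves G (D ⧸ Subgroup.center D) ∧
        ∃ ϑ ∈ Irr D, (∀ z ∈ Subgroup.center D, ϑ z = ϑ 1 → z = 1) ∧ LargeDefect ℓ M ϑ ∧
          altSum ℓ M ϑ ≠ 0 := by
  by_contra hcon
  apply h0
  let ℬ : Fam := fun S _ _ => Involves N S ∧ (GoodS ℓ S ∨ 𝒜 S)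
  have hB : ∀ (S : Type) [Group S] [Finite S], ℓ ∣ Nat.card S → Adm ℓ 𝒜 S → Involves N S →
      ℬ S := by
    intro S _ _ hl hA hi
    rcases hA with h | h
    · exact absurd hl h
    · exact ⟨hi, h⟩
  -- the family is closed
  have hcl : ClosedF ℓ ℬ := by
    intro S _ _ hS hl hBS Q hQ hQp hQi
    obtain ⟨hi, hBS⟩ := hBS
    have hiC : ∀ (T : Type) [Group T], Involves (fixN Q) T → Involves N T := by
      intro T _ hT
      obtain ⟨A, f, hf⟩ := hi
      exact Involves.of_subgroup (Involves.of_surjective f hf (Involves.of_subgroup hT))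
    by_cases hg : GoodS ℓ S
    · rcases clf ℓ S hS hl hg Q hQ hQp hQi with h | h | h
      · exact Or.inl h
      · refine Or.inr (Or.inl (lay_mono ?_ h))
        intro T _ _ hT hlT hgT hiT
        exact ⟨hiC T hiT, Or.inl hgT⟩
      · refine Or.inr (Or.inr ?_)
        intro T _ _ hT hlT hiT
        exact ⟨hiC T hiT, Or.inl (h T hT hlT hiT)⟩
    · have hAS : 𝒜 S := hBS.resolve_left hg
      rcases hfix S hS hl hi hAS hg Q hQ hQp hQi with h | h | h
      · exact Or.inl h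
      · refine Or.inr (Or.inl (qprod_lay ?_ h))
        intro T _ _ hT hlT hAT hiT
        exact hB T hlT hAT (hiC T hiT)
      · refine Or.inr (Or.inr ?_)
        intro T _ _ hT hlT hiT
        exact hB T hlT (h T hT hiT) (hiC T hiT)
  have hLay : LayG ℓ ℬ E := by
    obtain ⟨I, hI, K, h1, h2, h3⟩ := hE1
    refine ⟨I, hI, K, h1, h2, fun i => ?_⟩
    obtain ⟨S, gS, fS, hS, hA, hK⟩ := h3 i
    have hKN : K i ≤ N := (le_iSup K i).trans (h2.le.trans hEN)
    exact ⟨S, gS, fS, hS, fun hl => hB S hl hA (covS_inv hKN hK), hK⟩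
  have hMod : ModA ℓ ℬ N E := by
    intro S _ _ hS hl K hK f hf h1
    refine hB S hl (hNE S hS (involves_quot N E S K hK f hf h1)) ?_
    exact ⟨K.subgroupOf N, f.comp (Subgroup.subgroupOfEquivOfLe hK).toMonoidHom,
      hf.comp (Subgroup.subgroupOfEquivOfLe hK).surjective⟩
  refine finc ℓ hℓ.out M hM ℬ hcl G hc N E hN hE hEN hLay hMod ?_ χ hχ ψ hψ hχψ hL
  intro S _ _ hS hl hBS D _ _ hD hZ hnear hinv ϑ hϑ hfaith hLϑ
  by_contra h11
  obtain ⟨hi, hBS⟩ := hBS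
  have hnl : NearlySimpleL ℓ D S := hnear.nearlySimpleL
  have hbad : ¬ (RankOne ℓ S ∨ CyTI ℓ S) := by
    intro h
    exact h11 (BN.H66.famF ℓ hℓ.out M hM S hS h D hD hnl ϑ hϑ hLϑ)
  have hR : ¬ RankOne ℓ S := fun h => hbad (Or.inl h)
  have hC : ¬ CyTI ℓ S := fun h => hbad (Or.inr h)
  have hpsl : ∀ (K : Type) [Field K] [Finite K], (ℓ = 2 → (2 : K) = 0) →
      IsEmpty (S ≃* Matrix.ProjectiveSpecialLinearGroup (Fin 2) K) := by
    intro K _ _ hK
    refine ⟨fun e => ?_⟩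
    by_cases hl' : (ℓ : K) = 0
    · have hch : CharP K ℓ := by
        obtain ⟨p, hp⟩ := CharP.exists K
        have h13 : p ∣ ℓ := (CharP.cast_eq_zero_iff K p ℓ).mp hl'
        rcases (Nat.dvd_prime hℓ.out).mp h13 with h14 | h14
        · exact absurd h14 (CharP.char_ne_one K p)
        · rw [← h14]
          exact hp
      exact hR (RankOne.equiv e (BN.H96.psl ℓ K))
    · have hl2 : ℓ ≠ 2 := by
        intro h13
        apply hl'
        rw [h13]
        exact_mod_cast hK h13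
      refine hC (H36.cyti_equiv e (H36.psl_cyti ℓ hl2 K hl' ?_))
      rw [← Nat.card_congr e.toEquiv]
      exact hl
  have hAS : 𝒜 S := by
    rcases hBS with h | h
    · exfalso
      rcases h with h | ⟨K, _, _, hK, ⟨e⟩⟩ | h
      · exact hC h
      · exact hR (RankOne.equiv e (BN.H96.psl ℓ K))
      · exact hR h.1
    · exact h
  refine hcon ⟨S, inferInstance, inferInstance, D, inferInstance, inferInstance, hS, hAS, hi, ?_,
    hC, hR, hpsl, hD, hZ, hnear, hinv, ϑ, hϑ, hfaith, hLϑ, h11⟩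
  by_contra h12
  exact hC (H36.cyti_of_not_sq ℓ S hl h12)

end Pool.Agent.PP.X2.H18
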