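import Pool.Agent.Helper18_X2.AsmB
import Pool.Agent.Helper18_X2.FinS
import Pool.Agent.Helper47_X2.Clm
import Pool.Agent.Helper47_X2.Cla

/-!
# AWC, part X2: the assembly, third part
-/

noncomputable section

namespace Pool.Agent.PP.X2.A

open Pool.Agent.PP Pool.Agent.PP.X2

theorem clm_ : ClmStmt := H47.clm qmc_

/-- the final theorem of part X2, without hypotheses -/
theorem finC0 : FinCStmt := finC_ clm_

theorem mainC0 : MainCStmt := mainC0_ clm_

theorem relC0 : RelCStmt := relC0_ clm_

end Pool.Agent.PP.X2.A
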