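import Pool.Agent.Helper18_X2.Stmts
import Pool.Agent.Helper36_PP.Classes
import Mathlib.LinearAlgebra.Matrix.ProjectiveSpecialLinearGroup
import Mathlib.LinearAlgebra.Projectivization.PSL.PSL2

/-!
# AWC, part X2, second part: a closed family without hypotheses

Text: `AWC_X2F.md`.
-/

open scoped BigOperators

noncomputable section

namespace Pool.Agent.PP.X2

open Pool.Agent.Helper51_AWC Pool.Agent.Helper79_WRA Pool.Agent.PP

/-! ## Notation -/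

/-- `PSL_2(K)` -/
abbrev PS (K : Type) [Field K] : Type := Matrix.ProjectiveSpecialLinearGroup (Fin 2) K

/-- the matrix with rows `(1, x)`, `(0, 1)` -/
def uS {K : Type} [Field K] (x : K) : Matrix.SpecialLinearGroup (Fin 2) K :=
  ⟨!![1, x; 0, 1], by simp [Matrix.det_fin_two]⟩

/-- the matrix with rows `(1, 0)`, `(x, 1)` -/
def vS {K : Type} [Field K] (x : K) : Matrix.SpecialLinearGroup (Fin 2) K :=
  ⟨!![1, 0; x, 1], by simp [Matrix.det_fin_two]⟩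

/-- the class of `uS x` -/
def uP {K : Type} [Field K] (x : K) : PS K :=
  QuotientGroup.mk' (Subgroup.center (Matrix.SpecialLinearGroup (Fin 2) K)) (uS x)

/-- the class of `vS x` -/
def vP {K : Type} [Field K] (x : K) : PS K :=
  QuotientGroup.mk' (Subgroup.center (Matrix.SpecialLinearGroup (Fin 2) K)) (vS x)

/-- the Sylow `ℓ`-subgroups intersect trivially, and every one is transitive on the others -/
def TrS (ℓ : ℕ) (S : Type) [Group S] : Prop :=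
  (∀ P P' : Sylow ℓ S, P ≠ P' → ∀ x ∈ P, x ∈ P' → x = 1) ∧
  ∀ P P₁ P₂ : Sylow ℓ S, P₁ ≠ P → P₂ ≠ P → ∃ u ∈ P, ∀ x, x ∈ P₂ ↔ u⁻¹ * x * u ∈ P₁

/-! ## The modules -/

/-- CYS: the simple groups of order divisible by `ℓ` involved in a group with a cyclic trivial
intersection Sylow `ℓ`-subgroup have such Sylow subgroups. -/
def CysStmt : Prop := ∀ (ℓ : ℕ) [Fact ℓ.Prime] (G : Type) [Group G] [Finite G], CyTI ℓ G →
  ∀ (S : Type) [Group S] [Finite S], NonabSimple S → ℓ ∣ Nat.card S → Involves G S → CyTI ℓ S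

/-- RKF: fixed points of an `ℓ`-group of automorphisms of a group with the property `TrS`. -/
def RkfStmt : Prop := ∀ (ℓ : ℕ) [Fact ℓ.Prime] (S : Type) [Group S] [Finite S],
  ℓ ∣ Nat.card S → TrS ℓ S → ∀ Q : Subgroup (MulAut S), IsPGroup ℓ Q →
  opCore ℓ (fixN Q) ≠ ⊥ ∨ ∃ P₁ P₂ : Sylow ℓ S, P₁ ≠ P₂ ∧ (∀ α ∈ Q, ∀ x ∈ P₁, α x ∈ P₁) ∧
    (∀ α ∈ Q, ∀ x ∈ P₂, α x ∈ P₂) ∧
    (Oup ℓ (fixN Q)).map (fixN Q).subtype =
      (fixN Q ⊓ (P₁ : Subgroup S)) ⊔ (fixN Q ⊓ (P₂ : Subgroup S)) ∧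
    ∀ n : ℕ, ℓ ^ n ∣ Nat.card (fixN Q) → ℓ ^ n ∣ Nat.card (fixN Q ⊓ (P₁ : Subgroup S) : Subgroup S) ∨
      ℓ ^ n ∣ Nat.card (fixN Q ⊓ (P₂ : Subgroup S) : Subgroup S)

/-- PSB: the Sylow `ℓ`-subgroups of `PSL_2(K)`. -/
def PsbStmt : Prop := ∀ (ℓ : ℕ) [Fact ℓ.Prime] (K : Type) [Field K] [Finite K] [CharP K ℓ],
  ℓ ∣ Nat.card (PS K) ∧ TrS ℓ (PS K) ∧ ∀ P₁ P₂ : Sylow ℓ (PS K), P₁ ≠ P₂ → ∃ g : PS K,
    (∀ x, x ∈ P₁ ↔ ∃ t : K, x = g * uP t * g⁻¹) ∧ ∀ x, x ∈ P₂ ↔ ∃ t : K, x = g * vP t * g⁻¹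

/-- PSC: automorphisms of `PSL_2(K)` which stabilise both unipotent subgroups. -/
def PscStmt : Prop := ∀ (K : Type) [Field K] [Finite K], ∀ Q : Subgroup (MulAut (PS K)),
  (∀ α ∈ Q, ∀ x : K, ∃ y : K, α (uP x) = uP y) → (∀ α ∈ Q, ∀ x : K, ∃ y : K, α (vP x) = vP y) →
  ∀ d : K, d ≠ 0 → (∀ α ∈ Q, α (uP d) = uP d) → ∃ K₀ : Subfield K,
    (∀ x : K, (∀ α ∈ Q, α (uP (d * x)) = uP (d * x)) ↔ x ∈ K₀) ∧
    ∀ x : K, (∀ α ∈ Q, α (vP (d⁻¹ * x)) = vP (d⁻¹ * x)) ↔ x ∈ K₀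

/-- PSD: the subgroup generated by the unipotent elements over a subfield. -/
def PsdStmt : Prop := ∀ (K : Type) [Field K] (K₀ : Subfield K) (d : K), d ≠ 0 →
  Nonempty ((Subgroup.closure {z : PS K | ∃ x ∈ K₀, z = uP (d * x) ∨ z = vP (d⁻¹ * x)} :
    Subgroup (PS K)) ≃* PS K₀)

/-- PSQ: fixed points of `ℓ`-groups of automorphisms of `PSL_2(K)`. -/
def PsqStmt : Prop := ∀ (ℓ : ℕ) [Fact ℓ.Prime] (K : Type) [Field K] [Finite K] [CharP K ℓ]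
  (Q : Subgroup (MulAut (PS K))), IsPGroup ℓ Q →
  opCore ℓ (fixN Q) ≠ ⊥ ∨ ¬ ℓ ^ 2 ∣ Nat.card (fixN Q) ∨
    ∃ (K₀ : Type) (_ : Field K₀) (_ : Finite K₀), CharP K₀ ℓ ∧ 4 ≤ Nat.card K₀ ∧
      Nonempty (Oup ℓ (fixN Q) ≃* PS K₀)

/-! ## The family -/

/-- The simple groups `S` with a cyclic trivial intersection Sylow `ℓ`-subgroup, the groups
`PSL_2(K)` over finite fields of characteristic `ℓ`, and the simple groups of rank one in
characteristic `ℓ` such that all automorphisms of order a power of `ℓ` are inner or all simple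
groups of order divisible by `ℓ` involved in `S` are of rank one or have a cyclic trivial
intersection Sylow `ℓ`-subgroup. -/
def GoodS (ℓ : ℕ) : Fam := fun S _ _ => CyTI ℓ S ∨
  (∃ (K : Type) (_ : Field K) (_ : Finite K), CharP K ℓ ∧ Nonempty (S ≃* PS K)) ∨
  (RankOne ℓ S ∧ ((∀ α : MulAut S, (∃ n : ℕ, α ^ ℓ ^ n = 1) → ∃ s : S, α = MulAut.conj s) ∨
    ∀ (S' : Type) [Group S'] [Finite S'], NonabSimple S' → ℓ ∣ Nat.card S' → Involves S S' →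
      RankOne ℓ S' ∨ CyTI ℓ S'))

/-- CLF: the family is closed. -/
def ClfStmt : Prop := ∀ (ℓ : ℕ) [Fact ℓ.Prime], ClosedF ℓ (GoodS ℓ)

end Pool.Agent.PP.X2
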