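import Pool.Agent.Helper18_X2.AsmC
import Pool.Agent.Helper18_X2.StmtsF
import Pool.Agent.Helper18_X2.Cys
import Pool.Agent.Helper9_X2.Psc
import Pool.Agent.Helper71_X2.Psb
import Pool.Agent.Helper57_X2.Psd
import Pool.Agent.Helper57_X2.Pse
import Pool.Agent.Helper48_X2.Rkf
import Pool.Agent.Helper24_X2.Clf

set_option autoImplicit false

/-!
Assembly of the modules on the closed family (`StmtsF.lean`): `ClfStmt` without hypotheses.
-/

namespace Pool.Agent.PP.X2.A

open Pool.Agent.PP.X2

theorem psq_ : PsqStmt := H57.pse H48.rkf H71.psb H9.psc H57.psd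

theorem clf_ : ClfStmt := H24.clf H18.cys psq_ H71.psb

end Pool.Agent.PP.X2.A
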