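import Pool.Agent.Helper66_PP.StmtsJ
import Pool.Agent.Helper66_PP.StmtsF
import Pool.Agent.Helper66_PP.StmtsLQ
import Pool.Agent.Helper67_PP.Stmts
import Pool.Agent.Helper67_PP.StmtsU
import Pool.Agent.Helper98_PP.StmtsR2b
import Pool.Agent.Helper18_PP.StmtsDZ
import Pool.Agent.Helper18_PP.Good

/-!
# AWC, part X2: components instead of involved simple groups

Text: `AWC_X2.md`.  A family `𝒜` of simple groups is closed if the fixed points of outer
`ℓ`-groups of automorphisms of its members are built from members of `𝒜` again.  The class `Cls`: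
`N` has a subgroup `E`, normal in `H`, which is generated by commuting quasisimple groups over
members of `𝒜`, and the simple groups involved in `N / E` lie in `𝒜`.
-/

open scoped BigOperators

noncomputable section

namespace Pool.Agent.PP.X2

open Pool.Agent.Helper51_AWC Pool.Agent.Helper79_WRA Pool.Agent.PP

/-- a family of finite groups -/
abbrev Fam : Type 1 := (S : Type) → [Group S] → [Finite S] → Prop

/-- `K` is perfect and a central extension of `S` -/
def CovS (K S : Type) [Group K] [Group S] : Prop :=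
  commutator K = ⊤ ∧ ∃ f : K →* S, Function.Surjective f ∧ f.ker ≤ Subgroup.center K

/-- `E` is generated by the pairwise commuting subgroups `K i`; every `K i` is a perfect central
extension of a nonabelian simple group of order divisible by `ℓ` in the family `𝒜`. -/
structure LayD (ℓ : ℕ) (𝒜 : Fam) {H : Type} [Group H] (E : Subgroup H) (I : Type)
    (K : I → Subgroup H) : Prop where
  comm : ∀ i j, i ≠ j → ∀ x ∈ K i, ∀ y ∈ K j, x * y = y * x
  sup : (⨆ i, K i) = E
  cov : ∀ i, ∃ (S : Type) (_ : Group S) (_ : Finite S), NonabSimple S ∧ ℓ ∣ Nat.card S ∧ 𝒜 S ∧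
    CovS (K i) S

/-- `E` is a product of finitely many commuting quasisimple groups over members of `𝒜` of order
divisible by `ℓ` (possibly `E = 1`). -/
def Lay (ℓ : ℕ) (𝒜 : Fam) {H : Type} [Group H] (E : Subgroup H) : Prop :=
  ∃ (I : Type) (_ : Finite I) (K : I → Subgroup H), LayD ℓ 𝒜 E I K

/-- the subgroup generated by the elements of order a power of `ℓ` -/
def Oup (ℓ : ℕ) (A : Type) [Group A] : Subgroup A :=
  Subgroup.closure {x | ∃ n : ℕ, x ^ ℓ ^ n = 1}

/-- all nonabelian simple groups of order divisible by `ℓ` involved in `A` lie in `𝒜` -/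
def InvA (ℓ : ℕ) (𝒜 : Fam) (A : Type) [Group A] : Prop :=
  ∀ (S : Type) [Group S] [Finite S], NonabSimple S → ℓ ∣ Nat.card S → Involves A S → 𝒜 S

/-- all nonabelian simple groups of order divisible by `ℓ` involved in `N / E` lie in `𝒜` -/
def ModA (ℓ : ℕ) (𝒜 : Fam) {H : Type} [Group H] (N E : Subgroup H) : Prop :=
  ∀ (S : Type) [Group S] [Finite S], NonabSimple S → ℓ ∣ Nat.card S → ∀ K : Subgroup H, K ≤ N →
    ∀ f : K →* S, Function.Surjective f → (∀ x : K, (x : H) ∈ E → f x = 1) → 𝒜 S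

/-- The class: `E` is normal in `H`, `E ≤ N` is a product of commuting quasisimple groups over
members of `𝒜`, the simple groups involved in `N / E` lie in `𝒜`. -/
def Cls (ℓ : ℕ) (𝒜 : Fam) {H : Type} [Group H] (N : Subgroup H) : Prop :=
  ∃ E : Subgroup H, E.Normal ∧ E ≤ N ∧ Lay ℓ 𝒜 E ∧ ModA ℓ 𝒜 N E

/-- Closed families: for every `S` in `𝒜` and every nontrivial `ℓ`-group `Q` of automorphisms of
`S` containing no inner automorphism `≠ 1`, the group `C` of the fixed points satisfies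
`O_ℓ(C) ≠ 1`, or its subgroup generated by the `ℓ`-elements is a product of commuting quasisimple
groups over members of `𝒜`, or all simple groups of order divisible by `ℓ` involved in `C` lie in
`𝒜`. -/
def ClosedF (ℓ : ℕ) (𝒜 : Fam) : Prop :=
  ∀ (S : Type) [Group S] [Finite S], NonabSimple S → ℓ ∣ Nat.card S → 𝒜 S →
  ∀ Q : Subgroup (MulAut S), Q ≠ ⊥ → IsPGroup ℓ Q → Q ⊓ (MulAut.conj (G := S)).range = ⊥ →
    opCore ℓ (fixN Q) ≠ ⊥ ∨ Lay ℓ 𝒜 (Oup ℓ (fixN Q)) ∨ InvA ℓ 𝒜 (fixN Q)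

/-- The hypothesis on the nearly simple groups with socle in `𝒜` involved in `H`. -/
def Hyp (ℓ : ℕ) (F : Type) [Field F] (𝒜 : Fam) (H : Type) [Group H] : Prop :=
  ∀ (S : Type) [Group S] [Finite S], NonabSimple S → ℓ ∣ Nat.card S → 𝒜 S →
  ∀ (D : Type) [Group D] [Finite D], opCore ℓ D = ⊥ → NearlySimpleL ℓ D S →
  Involves H (D ⧸ Subgroup.center D) → ∀ e : D → F, IsIdem e →
  (∀ z ∈ Subgroup.center D, z ≠ 1 → ∃ c : F, c ≠ 1 ∧ ∀ x, e (z * x) = c * e x) →
  Pos ℓ e ⊤ → YY ℓ ⊤ e = 0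

/-- the same for outer parts generated by two elements -/
def HypV (ℓ : ℕ) (F : Type) [Field F] (𝒜 : Fam) (H : Type) [Group H] : Prop :=
  ∀ (S : Type) [Group S] [Finite S], NonabSimple S → ℓ ∣ Nat.card S → 𝒜 S →
  ∀ (D : Type) [Group D] [Finite D], opCore ℓ D = ⊥ → NearlySimpleF ℓ D S →
  Involves H (D ⧸ Subgroup.center D) → ∀ e : D → F, IsIdem e →
  (∀ z ∈ Subgroup.center D, z ≠ 1 → ∃ c : F, c ≠ 1 ∧ ∀ x, e (z * x) = c * e x) →
  Pos ℓ e ⊤ → YY ℓ ⊤ e = 0

/-- the same with `Z(D) ≤ [D, D]` -/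
def HypQ (ℓ : ℕ) (F : Type) [Field F] (𝒜 : Fam) (H : Type) [Group H] : Prop :=
  ∀ (S : Type) [Group S] [Finite S], NonabSimple S → ℓ ∣ Nat.card S → 𝒜 S →
  ∀ (D : Type) [Group D] [Finite D], opCore ℓ D = ⊥ → NearlySimpleF ℓ D S →
  Involves H (D ⧸ Subgroup.center D) → Subgroup.center D ≤ commutator D →
  ∀ e : D → F, IsIdem e →
  (∀ z ∈ Subgroup.center D, z ≠ 1 → ∃ c : F, c ≠ 1 ∧ ∀ x, e (z * x) = c * e x) →
  Pos ℓ e ⊤ → YY ℓ ⊤ e = 0

/-- the induction hypothesis -/
def YltC (ℓ : ℕ) (F : Type) [Field F] (𝒜 : Fam) (m : ℕ) : Prop :=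
  ∀ (H : Type) [Group H] [Finite H] (N : Subgroup H), N.Normal → mu N < m → Cls ℓ 𝒜 N →
    Hyp ℓ F 𝒜 H → YH ℓ F N

end Pool.Agent.PP.X2
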