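import Pool.Agent.Helper18_X2.DefsR
import Pool.Agent.Helper36_X1.Stmts3

/-!
# AWC, parts X1 and X2: the closed family with the groups of Lie type
-/

open scoped BigOperators

noncomputable section

namespace Pool.Agent.PP.X2

open Pool.Agent.Helper51_AWC Pool.Agent.Helper79_WRA Pool.Agent.PP

/-- The simple groups `S` with a cyclic trivial intersection Sylow `ℓ`-subgroup, the groups
`PSL_2(K)` over finite fields of characteristic `ℓ`, and the simple groups of Lie type in
characteristic `ℓ` such that all automorphisms of order a power of `ℓ` are inner or all simple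
groups of order divisible by `ℓ` involved in `S` are of Lie type in characteristic `ℓ` or have a
cyclic trivial intersection Sylow `ℓ`-subgroup. -/
def GoodL (ℓ : ℕ) : Fam := fun S _ _ => CyTI ℓ S ∨
  (∃ (K : Type) (_ : Field K) (_ : Finite K), CharP K ℓ ∧
    Nonempty (S ≃* Matrix.ProjectiveSpecialLinearGroup (Fin 2) K)) ∨
  (X1.LieType ℓ S ∧ ((∀ α : MulAut S, (∃ n : ℕ, α ^ ℓ ^ n = 1) → ∃ s : S, α = MulAut.conj s) ∨
    ∀ (S' : Type) [Group S'] [Finite S'], NonabSimple S' → ℓ ∣ Nat.card S' → Involves S S' →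
      X1.LieType ℓ S' ∨ CyTI ℓ S'))

/-- The simple groups of order prime to `ℓ`, the simple groups in `GoodL ℓ` and those in `𝒜`. -/
def AdmL (ℓ : ℕ) (𝒜 : Fam) : Fam := fun S _ _ => ¬ ℓ ∣ Nat.card S ∨ GoodL ℓ S ∨ 𝒜 S

end Pool.Agent.PP.X2
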