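import Pool.Agent.Helper18_X2.StmtsF

/-!
# AWC, part X2: definitions for the final theorem
-/

open scoped BigOperators

noncomputable section

namespace Pool.Agent.PP.X2

open Pool.Agent.Helper51_AWC Pool.Agent.Helper79_WRA Pool.Agent.PP

/-- The simple groups of order prime to `ℓ`, the simple groups in `GoodS ℓ` and those in `𝒜`. -/
def Adm (ℓ : ℕ) (𝒜 : Fam) : Fam := fun S _ _ => ¬ ℓ ∣ Nat.card S ∨ GoodS ℓ S ∨ 𝒜 S

/-- The subgroup `E` is generated by finitely many pairwise commuting subgroups `K i` which are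
perfect central extensions of nonabelian simple groups in `𝒞` (possibly `E = 1`). -/
def QProd (𝒞 : Fam) {H : Type} [Group H] (E : Subgroup H) : Prop :=
  ∃ (I : Type) (_ : Finite I) (K : I → Subgroup H),
    (∀ i j, i ≠ j → ∀ x ∈ K i, ∀ y ∈ K j, x * y = y * x) ∧ (⨆ i, K i) = E ∧
    ∀ i, ∃ (S : Type) (_ : Group S) (_ : Finite S), NonabSimple S ∧ 𝒞 S ∧ CovS (K i) S

/-- All nonabelian simple groups involved in `A` are in `𝒞`. -/
def AllIn (𝒞 : Fam) (A : Type) [Group A] : Prop :=
  ∀ (S : Type) [Group S] [Finite S], NonabSimple S → Involves A S → 𝒞 S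

/-- For every nontrivial `ℓ`-group `Q` of automorphisms of `S` without inner automorphisms `≠ 1`, the
group `C` of the fixed points of `Q` has a nontrivial normal `ℓ`-subgroup, or the subgroup generated
by its `ℓ`-elements is a product of commuting quasisimple groups over simple groups in `𝒞`, or all
nonabelian simple groups involved in `C` are in `𝒞`. -/
def FixIn (ℓ : ℕ) (𝒞 : Fam) (S : Type) [Group S] [Finite S] : Prop :=
  ∀ Q : Subgroup (MulAut S), Q ≠ ⊥ → IsPGroup ℓ Q → Q ⊓ (MulAut.conj (G := S)).range = ⊥ →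
    opCore ℓ (fixN Q) ≠ ⊥ ∨ QProd 𝒞 (Oup ℓ (fixN Q)) ∨ AllIn 𝒞 (fixN Q)

end Pool.Agent.PP.X2
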