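import Pool.Agent.Helper18_X2.FinS
import Pool.Agent.Helper66_D1.AsmD1

/-!
# AWC, part X2: blocks of defect one do not occur
-/

open scoped BigOperators

noncomputable section

namespace Pool.Agent.PP.X2.H18

open Pool.Agent.Helper51_AWC Pool.Agent.Helper79_WRA Pool.Agent.PP

theorem defect_two (ℓ : ℕ) [hℓ : Fact ℓ.Prime] (M : Ideal (integralClosure ℤ ℂ)) [hM' : M.IsMaximal]
    (hM : (ℓ : integralClosure ℤ ℂ) ∈ M) (D : Type) [Group D] [Finite D] (hD : opCore ℓ D = ⊥)
    (ϑ : D → ℂ) (hϑ : ϑ ∈ Irr D) (hL : LargeDefect ℓ M ϑ) (h0 : altSum ℓ M ϑ ≠ 0) (x : D)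
    (hx : ¬ Cong M (omega (MonoidHom.id D) ϑ x) 0) :
    ℓ ^ 2 ∣ Nat.card (Subgroup.centralizer ({x} : Set D)) := by
  classical
  have := Fintype.ofFinite D
  by_contra hdiv
  apply h0
  let e : (⊤ : Subgroup D) ≃* D := Subgroup.topEquiv
  have hψ : (fun n : (⊤ : Subgroup D) => ϑ (e n)) ∈ Irr (⊤ : Subgroup D) := irr_comp_equiv e hϑ
  have hcore : opCore ℓ (⊤ : Subgroup D) = ⊥ := by
    have h1 := opCore_equiv ℓ e
    rw [mapE_apply, hD] at h1
    exact (Subgroup.map_eq_bot_iff_of_injective _ e.injective).1 h1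
  have hom : ∀ (ψ : D → ℂ) (y : (⊤ : Subgroup D)),
      omega (MonoidHom.id (⊤ : Subgroup D)) (fun n : (⊤ : Subgroup D) => ψ (e n)) y =
        omega (MonoidHom.id D) ψ (e y) := by
    intro ψ y
    unfold omega
    congr 1
    rw [← finsum_comp_equiv e.toEquiv]
    apply finsum_congr
    intro h
    have h1 : IsConj y ((MonoidHom.id (⊤ : Subgroup D)) h) ↔
        IsConj (e y) ((MonoidHom.id D) (e h)) := by
      constructor
      · intro h2
        exact MonoidHom.map_isConj e.toMonoidHom h2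
      · intro h2
        have h3 := MonoidHom.map_isConj e.symm.toMonoidHom h2
        have h4 : e.symm.toMonoidHom (e y) = y := e.symm_apply_apply y
        have h5 : e.symm.toMonoidHom ((MonoidHom.id D) (e h)) = h := e.symm_apply_apply h
        rw [h4, h5] at h3
        exact h3
    rw [show (IsConj y ((MonoidHom.id (⊤ : Subgroup D)) h)) =
      IsConj (e y) ((MonoidHom.id D) (e h)) from propext h1]
    rfl
  refine D66A.fd1_ ℓ hℓ.out M hM D (by rw [hD]; exact bot_le) ⊤ inferInstance ϑ hϑ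
    (fun n : (⊤ : Subgroup D) => ϑ (e n)) hψ ?_ ?_ ?_
  · have h1 : (∑ᶠ n : (⊤ : Subgroup D), ϑ n * starRingEnd ℂ (ϑ (e n))) =
        ∑ᶠ g : D, ϑ g * starRingEnd ℂ (ϑ g) := by
      rw [← finsum_comp_equiv e.toEquiv]
      rfl
    rw [h1, finsum_eq_sum_of_fintype]
    have h2 : (∑ g : D, ϑ g * starRingEnd ℂ (ϑ g)) =
        ((∑ g : D, Complex.normSq (ϑ g) : ℝ) : ℂ) := by
      push_cast
      exact Finset.sum_congr rfl fun g _ => Complex.mul_conj _
    rw [h2]
    have h3 : 0 < ∑ g : D, Complex.normSq (ϑ g) := by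
      apply Finset.sum_pos' (fun g _ => Complex.normSq_nonneg _)
      exact ⟨1, Finset.mem_univ _, Complex.normSq_pos.mpr (irr_one_ne hϑ)⟩
    exact_mod_cast h3.ne'
  · obtain ⟨ψ, hψ, h1, n, h2, h3⟩ := hL
    refine ⟨fun n => ψ (e n), irr_comp_equiv e hψ, fun g => ?_, n, h2, ?_⟩
    · rw [hom, hom]
      exact h1 _
    · rw [hcore, Subgroup.card_bot, Subgroup.card_top]
      rw [hD, Subgroup.card_bot] at h3
      exact h3
  · refine ⟨e.symm x, fun h1 => hx ?_, fun h1 => hdiv ?_⟩
    · rw [hom, e.apply_symm_apply] at h1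
      have hint : IsIntegral ℤ (omega (MonoidHom.id D) ϑ x) := omega_integral _ hϑ x
      rw [← red_eq_iff hint isIntegral_zero, h1, red_zero]
    · rw [hcore, Subgroup.card_bot, mul_one] at h1
      have h2 : Nat.card (Subgroup.centralizer ({e.symm x} : Set (⊤ : Subgroup D))) =
          Nat.card (Subgroup.centralizer ({x} : Set D)) := by
        apply Nat.card_congr
        refine ⟨fun y => ⟨e y, ?_⟩, fun y => ⟨e.symm y, ?_⟩, fun y => ?_, fun y => ?_⟩
        · have h3 := y.2
          rw [Subgroup.mem_centralizer_singleton_iff] at h3 ⊢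
          have h4 := congrArg e h3
          rw [map_mul, map_mul, e.apply_symm_apply] at h4
          exact h4
        · have h3 := y.2
          rw [Subgroup.mem_centralizer_singleton_iff] at h3 ⊢
          rw [← map_mul, h3, map_mul]
        · apply Subtype.ext
          exact e.symm_apply_apply _
        · apply Subtype.ext
          exact e.apply_symm_apply _
      rw [← h2]
      exact h1

end Pool.Agent.PP.X2.H18
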