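import Pool.Agent.Helper18_X2.DefsR
import Pool.Agent.Helper66_BN.Plug
import Pool.Agent.Helper96_BN.Bps
import Pool.Agent.Helper36_PP.Psc

/-!
# AWC, part X2: the final theorem in terms of admissible simple groups
-/

open scoped BigOperators

noncomputable section

namespace Pool.Agent.PP.X2.H18

open Pool.Agent.Helper51_AWC Pool.Agent.Helper79_WRA Pool.Agent.PP

/-- quotients of products of commuting groups -/
theorem qprod_lay {ℓ : ℕ} [hℓ : Fact ℓ.Prime] {𝒞 𝒜 : Fam} {H : Type} [Group H] [Finite H]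
    (h𝒞 : ∀ (S : Type) [Group S] [Finite S], NonabSimple S → ℓ ∣ Nat.card S → 𝒞 S →
      Involves H S → 𝒜 S)
    (h : QProd 𝒞 (Oup ℓ H)) : Lay ℓ 𝒜 (Oup ℓ H) := by
  obtain ⟨I, hI, K, hcomm, hsup, hcov⟩ := h
  refine ⟨I, hI, K, hcomm, hsup, ?_⟩
  intro i
  obtain ⟨S, gS, fS, hS, hCS, hK, f, hf, hker⟩ := hcov i
  have hinv : Involves H S := ⟨K i, f, hf⟩
  suffices hl : ℓ ∣ Nat.card S from
    ⟨S, gS, fS, hS, hl, h𝒞 S hS hl hCS hinv, hK, f, hf, hker⟩
  by_contra hl
  -- the complementary product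
  let L : Subgroup H := ⨆ j : {j : I // j ≠ i}, K j
  have hKL : ∀ x ∈ K i, ∀ y ∈ L, x * y = y * x := by
    intro x hx y hy
    have h1 : L ≤ Subgroup.centralizer ({x} : Set H) := by
      apply iSup_le
      rintro ⟨j, hj⟩ z hz
      rw [Subgroup.mem_centralizer_singleton_iff]
      exact (hcomm i j (Ne.symm hj) x hx z hz).symm
    have h2 := h1 hy
    rw [Subgroup.mem_centralizer_singleton_iff] at h2
    exact h2.symm
  have htop : Oup ℓ H ≤ K i ⊔ L := by
    rw [← hsup]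
    apply iSup_le
    intro j
    by_cases hj : j = i
    · rw [hj]
      exact le_sup_left
    · exact (le_iSup (fun j : {j : I // j ≠ i} => K j) ⟨j, hj⟩).trans le_sup_right
  have hdec : ∀ x ∈ Oup ℓ H, ∃ k ∈ K i, ∃ l ∈ L, x = k * l := by
    intro x hx
    have h1 := htop hx
    have hn : L ≤ Subgroup.normalizer (K i : Set H) := by
      intro y hy
      rw [Subgroup.mem_normalizer_iff]
      intro z
      constructor
      · intro hz
        have : y * z * y⁻¹ = z := by rw [← hKL z hz y hy]; group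
        rwa [this]
      · intro hz
        have h3 := hKL _ hz y hy
        have h4 : y * z * y⁻¹ * y = y * (y * z * y⁻¹) := h3
        have h5 : z = y * z * y⁻¹ := by
          have h6 : y * z = y * (y * z * y⁻¹) := by rw [← h4]; group
          exact mul_left_cancel h6
        rw [h5]
        exact hz
    rw [← SetLike.mem_coe, Subgroup.coe_mul_of_right_le_normalizer_left _ _ hn] at h1
    obtain ⟨k, hk, l, hl', rfl⟩ := h1
    exact ⟨k, hk, l, hl', rfl⟩
  have hZ : ∀ (x : S), (∀ y, x * y = y * x) → x = 1 := by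
    intro x hx
    have hs := hS.1
    have h1 : x ∈ Subgroup.center S := Subgroup.mem_center_iff.mpr fun y => (hx y).symm
    rcases hs.eq_bot_or_eq_top_of_normal (Subgroup.center S) inferInstance with h2 | h2
    · rw [h2] at h1
      exact h1
    · exfalso
      obtain ⟨a, b, hab⟩ := hS.2
      have h3 : b ∈ Subgroup.center S := by rw [h2]; exact Subgroup.mem_top b
      exact hab (Subgroup.mem_center_iff.mp h3 a)
  -- every `ℓ`-element of `H` has its component in the kernel of `f`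
  have hone : ∀ x ∈ Oup ℓ H, ∀ k (hk : k ∈ K i), ∀ l ∈ L, x = k * l → f ⟨k, hk⟩ = 1 := by
    intro x hx
    induction hx using Subgroup.closure_induction with
    | mem x hx =>
      intro k hk l hl' hxk
      obtain ⟨n, hn⟩ := hx
      have hkl : Commute k l := hKL k hk l hl'
      have h1 : k ^ ℓ ^ n * l ^ ℓ ^ n = 1 := by
        rw [← hkl.mul_pow, ← hxk, hn]
      have h2 : k ^ ℓ ^ n = (l ^ ℓ ^ n)⁻¹ := eq_inv_of_mul_eq_one_left h1
      have h3 : k ^ ℓ ^ n ∈ L := by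
        rw [h2]
        exact L.inv_mem (L.pow_mem hl' _)
      have h4 : (f ⟨k, hk⟩) ^ ℓ ^ n = 1 := by
        apply hZ
        intro y
        obtain ⟨z, rfl⟩ := hf y
        rw [← map_pow, ← map_mul, ← map_mul]
        congr 1
        apply Subtype.ext
        show k ^ ℓ ^ n * (z : H) = (z : H) * k ^ ℓ ^ n
        exact (hKL z z.2 _ h3).symm
      rw [← orderOf_eq_one_iff]
      obtain ⟨m, -, hm⟩ := (Nat.dvd_prime_pow hℓ.out).mp (orderOf_dvd_of_pow_eq_one h4)
      rcases m with _ | m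
      · rw [hm, pow_zero]
      · exfalso
        apply hl
        have h5 : orderOf (f ⟨k, hk⟩) ∣ Nat.card S := orderOf_dvd_natCard _
        rw [hm] at h5
        exact (dvd_pow_self ℓ m.succ_ne_zero).trans h5
    | one =>
      intro k hk l hl' hxk
      apply hZ
      intro y
      obtain ⟨z, rfl⟩ := hf y
      rw [← map_mul, ← map_mul]
      congr 1
      apply Subtype.ext
      show k * (z : H) = (z : H) * k
      have h2 : k = l⁻¹ := eq_inv_of_mul_eq_one_left hxk.symm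
      have h3 : k ∈ L := by
        rw [h2]
        exact L.inv_mem hl'
      exact (hKL z z.2 _ h3).symm
    | mul x y hx hy ihx ihy =>
      intro k hk l hl' hxk
      obtain ⟨k₁, hk₁, l₁, hl₁, h1⟩ := hdec x hx
      obtain ⟨k₂, hk₂, l₂, hl₂, h2⟩ := hdec y hy
      have h3 := ihx k₁ hk₁ l₁ hl₁ h1
      have h4 := ihy k₂ hk₂ l₂ hl₂ h2
      have h5 : k * l = k₁ * l₁ * (k₂ * l₂) := by rw [← hxk, h1, h2]
      have h6 : k₁ * l₁ * (k₂ * l₂) = (k₁ * k₂) * (l₁ * l₂) := by
        have h7 : l₁ * k₂ = k₂ * l₁ := (hKL k₂ hk₂ l₁ hl₁).symm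
        calc k₁ * l₁ * (k₂ * l₂) = k₁ * (l₁ * k₂) * l₂ := by group
          _ = k₁ * (k₂ * l₁) * l₂ := by rw [h7]
          _ = (k₁ * k₂) * (l₁ * l₂) := by group
      rw [h6] at h5
      have h8 : (k₁ * k₂)⁻¹ * k = (l₁ * l₂) * l⁻¹ := by
        have : (k₁ * k₂)⁻¹ * (k * l) * l⁻¹ = (k₁ * k₂)⁻¹ * (k₁ * k₂ * (l₁ * l₂)) * l⁻¹ := by
          rw [h5]
        have h9 : (k₁ * k₂)⁻¹ * (k * l) * l⁻¹ = (k₁ * k₂)⁻¹ * k := by group
        have h10 : (k₁ * k₂)⁻¹ * (k₁ * k₂ * (l₁ * l₂)) * l⁻¹ = (l₁ * l₂) * l⁻¹ := by group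
        rw [← h9, this, h10]
      have h9 : (k₁ * k₂)⁻¹ * k ∈ L := by
        rw [h8]
        exact L.mul_mem (L.mul_mem hl₁ hl₂) (L.inv_mem hl')
      have h10 : (⟨k, hk⟩ : K i) = ⟨k₁, hk₁⟩ * ⟨k₂, hk₂⟩ *
          ⟨(k₁ * k₂)⁻¹ * k, (K i).mul_mem ((K i).inv_mem ((K i).mul_mem hk₁ hk₂)) hk⟩ := by
        apply Subtype.ext
        show k = k₁ * k₂ * ((k₁ * k₂)⁻¹ * k)
        group
      rw [h10, map_mul, map_mul, h3, h4, one_mul, one_mul]
      apply hZ
      intro y
      obtain ⟨z, rfl⟩ := hf y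
      rw [← map_mul, ← map_mul]
      congr 1
      apply Subtype.ext
      exact (hKL z z.2 _ h9).symm
    | inv x hx ih =>
      intro k hk l hl' hxk
      have h1 : x = k⁻¹ * l⁻¹ := by
        have h2 : x = (k * l)⁻¹ := by rw [← hxk, inv_inv]
        rw [h2, hKL k hk l hl', mul_inv_rev]
      have h3 := ih k⁻¹ ((K i).inv_mem hk) l⁻¹ (L.inv_mem hl') h1
      have h4 : (⟨k, hk⟩ : K i) = (⟨k⁻¹, (K i).inv_mem hk⟩ : K i)⁻¹ := by
        apply Subtype.ext
        show k = (k⁻¹)⁻¹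
        rw [inv_inv]
      rw [h4, map_inv, h3, inv_one]
  obtain ⟨a, b, hab⟩ := hS.2
  obtain ⟨a', rfl⟩ := hf a
  obtain ⟨b', rfl⟩ := hf b
  apply hab
  have ha : (a' : H) ∈ Oup ℓ H := by
    rw [← hsup]
    exact (le_iSup K i) a'.2
  have h1 := hone a' ha a' a'.2 1 L.one_mem (mul_one _).symm
  have h2 : f a' = 1 := h1
  rw [h2, one_mul, mul_one]

end Pool.Agent.PP.X2.H18
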