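import Pool.Agent.Helper66_BN.AsmBN
import Pool.Agent.Helper96_BN.Bps
import Pool.Agent.Helper36_PP.Psc
import Pool.Agent.Helper55_PP.Sur

/-!
Alperin's weight conjecture in alternating-sum form: reduction to the groups that are almost simple
modulo their centre, in a form relative to a normal subgroup, and its unconditional part.
-/

open scoped BigOperators

noncomputable section

namespace Pool.Agent.PP.X2.RetiredNSR

open Pool.Agent.Helper51_AWC Pool.Agent.PP

/-- Let `N` be a normal subgroup of the finite group `G` with `O_ℓ(G) ≤ Z(G)`, let `χ ∈ Irr(G)` lie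
over `ψ ∈ Irr(N)` such that the block of `ψ` has defect groups larger than `O_ℓ(N)`.  If the
alternating sum of the block of `χ` is not zero, then there are a finite group `D` with
`O_ℓ(D) = 1` and `Z(D) ≤ [D, D]` and a character `ϑ ∈ Irr(D)` faithful on `Z(D)` in a block of
positive defect, such that the alternating sum of the block of `ϑ` is not zero, `D / Z(D)` is
involved in `G` and almost simple, its outer part is a nilpotent group of order prime to `ℓ`
generated by two elements, and its socle `S` is involved in `N`, has order divisible by `ℓ ^ 2`,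
has no cyclic trivial intersection Sylow `ℓ`-subgroup, is not of rank one in characteristic `ℓ` and
is not isomorphic to `PSL_2(K)` for a finite field `K` (of characteristic two if `ℓ = 2`). -/
theorem result :
    ∀ (ℓ : ℕ) [Fact ℓ.Prime] (M : Ideal (integralClosure ℤ ℂ)) [M.IsMaximal],
      (ℓ : integralClosure ℤ ℂ) ∈ M → ∀ (G : Type) [Group G] [Finite G],
      opCore ℓ G ≤ Subgroup.center G → ∀ N : Subgroup G, N.Normal →
      ∀ χ ∈ Irr G, ∀ ψ ∈ Irr N, (∑ᶠ n : N, χ n * starRingEnd ℂ (ψ n)) ≠ 0 →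
        LargeDefect ℓ M ψ → altSum ℓ M χ ≠ 0 →
        ∃ (S : Type) (_ : Group S) (_ : Finite S) (D : Type) (_ : Group D) (_ : Finite D),
          NonabSimple S ∧ Involves N S ∧ ℓ ^ 2 ∣ Nat.card S ∧ ¬ CyTI ℓ S ∧ ¬ RankOne ℓ S ∧
            (∀ (K : Type) [Field K] [Finite K], (ℓ = 2 → (2 : K) = 0) →
              IsEmpty (S ≃* Matrix.ProjectiveSpecialLinearGroup (Fin 2) K)) ∧
            opCore ℓ D = ⊥ ∧ Subgroup.center D ≤ commutator D ∧ NearlySimpleF ℓ D S ∧
            Involves G (D ⧸ Subgroup.center D) ∧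
            ∃ ϑ ∈ Irr D, (∀ z ∈ Subgroup.center D, ϑ z = ϑ 1 → z = 1) ∧ LargeDefect ℓ M ϑ ∧
              altSum ℓ M ϑ ≠ 0 := by
  intro ℓ hℓ M _ hM G _ _ hc N hN χ hχ ψ hψ hχψ hL h0
  by_contra hcon
  refine h0 (BN.H66.fin3_ H55.sur ℓ hℓ.out M hM G hc N hN ?_ χ hχ ψ hψ hχψ hL)
  intro S _ _ h1 h2 h3 hR hC D _ _ h4 h5 h6 h7 ϑ h8 h9 h10
  by_contra h11
  refine hcon ⟨S, inferInstance, inferInstance, D, inferInstance, inferInstance, h1, h3, ?_, hC, hR,
    ?_, h4, h5, h6, h7, ϑ, h8, h9, h10, h11⟩
  · by_contra h12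
    exact hC (H36.cyti_of_not_sq ℓ S h2 h12)
  · intro K _ _ hK
    refine ⟨fun e => ?_⟩
    by_cases hl : (ℓ : K) = 0
    · have hch : CharP K ℓ := by
        obtain ⟨p, hp⟩ := CharP.exists K
        have h13 : p ∣ ℓ := (CharP.cast_eq_zero_iff K p ℓ).mp hl
        rcases (Nat.dvd_prime hℓ.out).mp h13 with h14 | h14
        · exact absurd h14 (CharP.char_ne_one K p)
        · rw [← h14]
          exact hp
      exact hR (RankOne.equiv e (BN.H96.psl ℓ K))
    · have hl2 : ℓ ≠ 2 := by
        intro h13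
        apply hl
        rw [h13]
        exact_mod_cast hK h13
      refine hC (H36.cyti_equiv e (H36.psl_cyti ℓ hl2 K hl ?_))
      rw [← Nat.card_congr e.toEquiv]
      exact h2

end Pool.Agent.PP.X2.RetiredNSR
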